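import Pool.Agent.W645.WV.Stm

set_option autoImplicit false

/-!
# Project WV, part PU1: the dyadic partition of unity
-/

open Set Filter Topology

namespace Pool.Agent.W372.WV

open Pool.Agent.W645.WV (Cls PU S_PU1)

/-- the basic cut-off function -/
noncomputable def b (y : ℝ) : ℝ := Real.smoothTransition (2 * y + 2) * Real.smoothTransition ((4 - y) / 3)

theorem b_smooth : ContDiff ℝ (⊤ : ℕ∞) b := by
  unfold b
  refine ContDiff.mul (Real.smoothTransition.contDiff.comp ?_) (Real.smoothTransition.contDiff.comp ?_)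
  · fun_prop
  · fun_prop

theorem b_nonneg (y : ℝ) : 0 ≤ b y :=
  mul_nonneg (Real.smoothTransition.nonneg _) (Real.smoothTransition.nonneg _)

theorem b_le (y : ℝ) : b y ≤ 1 :=
  mul_le_one₀ (Real.smoothTransition.le_one _) (Real.smoothTransition.nonneg _) (Real.smoothTransition.le_one _)

theorem b_one {y : ℝ} (h1 : -(1 / 2) ≤ y) (h2 : y ≤ 1) : b y = 1 := by
  unfold b
  rw [Real.smoothTransition.one_of_one_le (by linarith), Real.smoothTransition.one_of_one_le (by linarith), one_mul]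

theorem b_zero_left {y : ℝ} (h : y ≤ -1) : b y = 0 := by
  unfold b
  rw [Real.smoothTransition.zero_of_nonpos (by linarith), zero_mul]

theorem b_zero_right {y : ℝ} (h : 4 ≤ y) : b y = 0 := by
  unfold b
  rw [Real.smoothTransition.zero_of_nonpos (x := (4 - y) / 3) (by linarith), mul_zero]

/-- the dyadic piece -/
noncomputable def w (y : ℝ) : ℝ := if y ≤ 1 / 8 then 0 else b y - b (4 * y)

theorem w_low {y : ℝ} (h : y ≤ 1 / 4) : w y = 0 := by
  unfold w
  split_ifs with h1
  · rfl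
  · rw [b_one (by linarith) (by linarith), b_one (by linarith) (by linarith), sub_self]

theorem w_high {y : ℝ} (h : 1 / 8 < y) : w y = b y - b (4 * y) := by
  unfold w
  rw [if_neg (not_le.2 h)]

theorem w_eq {y : ℝ} (h : 0 ≤ y) : w y = b y - b (4 * y) := by
  rcases le_or_gt y (1 / 8) with h1 | h1
  · rw [w_low (by linarith), b_one (by linarith) (by linarith), b_one (by linarith) (by linarith), sub_self]
  · exact w_high h1

theorem w_supp {y : ℝ} (h : w y ≠ 0) : 1 / 4 ≤ y ∧ y ≤ 4 := by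
  constructor
  · by_contra h1
    exact h (w_low (not_le.1 h1).le)
  · by_contra h1
    have h2 := (not_le.1 h1).le
    exact h (by rw [w_high (by linarith), b_zero_right h2, b_zero_right (by linarith), sub_self])

theorem near {f g : ℝ → ℝ} (hf : ∀ y ≤ (1 / 4 : ℝ), f y = 0) (hg : ∀ y, 1 / 8 < y → f y = g y)
    (hs : ∀ y, 0 < y → ContDiffAt ℝ (⊤ : ℕ∞) g y) : ContDiff ℝ (⊤ : ℕ∞) f := by
  rw [contDiff_iff_contDiffAt]
  intro y
  rcases lt_or_ge y (1 / 4) with h | h
  · refine (contDiffAt_const (c := (0 : ℝ))).congr_of_eventuallyEq ?_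
    filter_upwards [Iio_mem_nhds h] with z hz
    exact hf z (le_of_lt hz)
  · refine (hs y (by linarith)).congr_of_eventuallyEq ?_
    filter_upwards [Ioi_mem_nhds (by linarith : (1 / 8 : ℝ) < y)] with z hz
    exact hg z hz

theorem w_smooth : ContDiff ℝ (⊤ : ℕ∞) w := by
  refine near (fun y hy => w_low hy) (fun y hy => w_high hy) fun y _ => ?_
  refine (b_smooth.sub (b_smooth.comp ?_)).contDiffAt
  fun_prop

/-- the dyadic piece divided by `2 π √y` -/
noncomputable def w' (y : ℝ) : ℝ := w y / (2 * Real.pi * Real.sqrt y)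

theorem w'_smooth : ContDiff ℝ (⊤ : ℕ∞) w' := by
  refine near (g := w') (fun y hy => ?_) (fun y _ => rfl) fun y hy => ?_
  · unfold w'
    rw [w_low hy, zero_div]
  · unfold w'
    refine w_smooth.contDiffAt.div (contDiffAt_const.mul (Real.contDiffAt_sqrt hy.ne')) ?_
    have := Real.sqrt_pos.2 hy
    have := Real.pi_pos
    positivity

theorem w'_supp {y : ℝ} (h : w' y ≠ 0) : 1 / 4 ≤ y ∧ y ≤ 4 := by
  refine w_supp fun h0 => h ?_
  unfold w'
  rw [h0, zero_div]

theorem bound {Θ : ℝ → ℂ} (h : ContDiff ℝ (⊤ : ℕ∞) Θ) {lo hi : ℝ} (hs : ∀ y, Θ y ≠ 0 → lo ≤ y ∧ y ≤ hi)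
    (K : ℕ) : ∃ N : ℝ, 0 < N ∧ ∀ k : ℕ, k ≤ K → ∀ y, ‖iteratedDeriv k Θ y‖ ≤ N := by
  have hc : HasCompactSupport Θ := by
    refine HasCompactSupport.intro (isCompact_Icc (a := lo) (b := hi)) fun y hy => ?_
    by_contra h1
    exact hy (hs y h1)
  have hk : ∀ k, HasCompactSupport (iteratedDeriv k Θ) := by
    intro k
    induction k with
    | zero => rw [iteratedDeriv_zero]; exact hc
    | succ k ih => rw [iteratedDeriv_succ]; exact ih.deriv
  have hb : ∀ k : ℕ, ∃ C : ℝ, ∀ y, ‖iteratedDeriv k Θ y‖ ≤ C := fun k =>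
    (h.continuous_iteratedDeriv k (by exact_mod_cast le_top)).bounded_above_of_compact_support (hk k)
  choose C hC using hb
  refine ⟨1 + ∑ k ∈ Finset.range (K + 1), |C k|, by positivity, fun k hkK y => ?_⟩
  have h1 := Finset.single_le_sum (f := fun k => |C k|) (fun i _ => abs_nonneg _)
    (Finset.mem_range.2 (Nat.lt_succ_of_le hkK))
  have h2 := hC k y
  have h3 := le_abs_self (C k)
  linarith

theorem pu1 : S_PU1 := by
  have hw : ContDiff ℝ (⊤ : ℕ∞) (fun y => ((w y : ℝ) : ℂ)) := Complex.ofRealCLM.contDiff.comp w_smooth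
  have hw' : ContDiff ℝ (⊤ : ℕ∞) (fun y => ((w' y : ℝ) : ℂ)) := Complex.ofRealCLM.contDiff.comp w'_smooth
  have hs : ∀ y, ((w y : ℝ) : ℂ) ≠ 0 → 1 / 4 ≤ y ∧ y ≤ 4 := fun y h =>
    w_supp fun h0 => h (by rw [h0, Complex.ofReal_zero])
  have hs' : ∀ y, ((w' y : ℝ) : ℂ) ≠ 0 → 1 / 4 ≤ y ∧ y ≤ 4 := fun y h =>
    w'_supp fun h0 => h (by rw [h0, Complex.ofReal_zero])
  obtain ⟨N, hN, hNb⟩ := bound hw hs 2
  obtain ⟨N', hN', hNb'⟩ := bound hw' hs' 2
  refine ⟨fun y => ((b y : ℝ) : ℂ), fun y => ((w y : ℝ) : ℂ), fun y => ((w' y : ℝ) : ℂ), N + N',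
    by positivity, Complex.ofRealCLM.contDiff.comp b_smooth, ?_, ?_, ?_, ?_, hs, ?_, ?_, ?_⟩
  · intro y hy
    simp only at hy
    constructor
    · by_contra h
      exact hy (by rw [b_zero_left (not_le.1 h).le, Complex.ofReal_zero])
    · by_contra h
      exact hy (by rw [b_zero_right (not_le.1 h).le, Complex.ofReal_zero])
  · intro y
    simp only
    rw [Complex.norm_real, Real.norm_of_nonneg (b_nonneg y)]
    exact b_le y
  · intro y h0 h1
    simp only
    rw [b_one (by linarith) h1, Complex.ofReal_one]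
  · refine ⟨hw, fun y hy => ?_, fun k hk y => (hNb k hk y).trans (by linarith)⟩
    have := hs y hy
    exact ⟨by linarith [this.1], by linarith [this.2]⟩
  · intro y hy
    simp only
    rw [w_eq hy]
    push_cast
    rfl
  · refine ⟨hw', fun y hy => ?_, fun k hk y => (hNb' k hk y).trans (by linarith)⟩
    have := hs' y hy
    exact ⟨by linarith [this.1], by linarith [this.2]⟩
  · intro y _
    unfold w'
    push_cast
    rfl

end Pool.Agent.W372.WV
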